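import Pool.Agent.Y916.Al.Stm

/-!
# An invertible matrix which contains given independent rows
-/

set_option autoImplicit false

namespace Pool.Agent.Y113.AL

theorem t_mat : Pool.Agent.Y916.Al.S_mat := by
  intro K _ N R κ a z ha hz
  classical
  set s : Set (Fin N → K) := Set.range a with hs
  set t : Set (Fin N → K) := Set.range a ∪ Set.range z with ht
  have hli : LinearIndepOn K id s := by
    rw [hs]
    exact ha.linearIndepOn_id
  have hst : s ⊆ t := Set.subset_union_left
  obtain ⟨b, hbt, hsb, htb, hbli⟩ := exists_linearIndepOn_id_extension hli hst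
  have hspan : Submodule.span K t = ⊤ := by
    by_contra hne
    obtain ⟨f, hf0, hf⟩ := Submodule.exists_le_ker_of_lt_top (Submodule.span K t) (lt_top_iff_ne_top.2 hne)
    apply hf0
    have h1 : ∀ x : Fin N → K, f x = ∑ j, x j * f (Pi.single j 1) := by
      intro x
      conv_lhs => rw [pi_eq_sum_univ' x]
      rw [map_sum]
      refine Finset.sum_congr rfl fun j _ => ?_
      rw [map_smul, smul_eq_mul]
    have h2 := hz (fun j => f (Pi.single j 1)) (by
      intro k
      have h3 : f (z k) = 0 := by
        have : z k ∈ LinearMap.ker f := hf (Submodule.subset_span (Or.inr ⟨k, rfl⟩))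
        simpa using this
      rw [h1] at h3
      exact h3)
    apply LinearMap.ext
    intro x
    rw [h1]
    simp only [LinearMap.zero_apply]
    refine Finset.sum_eq_zero fun j _ => ?_
    have := congrFun h2 j
    simp only [Pi.zero_apply] at this
    rw [this, mul_zero]
  have hbspan : ⊤ ≤ Submodule.span K b := by
    rw [← hspan]
    exact Submodule.span_le.2 htb
  have hbspan' : ⊤ ≤ Submodule.span K (Set.range (fun x : b => (x : Fin N → K))) := by
    rw [Subtype.range_coe]; exact hbspan
  let bas : Module.Basis b K (Fin N → K) := Module.Basis.mk hbli hbspan'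
  have : Finite b := Module.Finite.finite_basis bas
  have : Fintype b := Fintype.ofFinite b
  have hcard : Fintype.card b = N := by
    have := Module.finrank_eq_card_basis bas
    simpa using this.symm
  let e : Fin N ≃ b := (Fintype.equivFinOfCardEq hcard).symm
  have hM : (Matrix.of fun r => (e r : Fin N → K)).det ≠ 0 := by
    have h4 : LinearIndependent K (fun r => (e r : Fin N → K)) := by
      have h5 : LinearIndependent K (fun x : b => (x : Fin N → K)) := hbli
      exact h5.comp e e.injective
    have h6 : LinearIndependent K (Matrix.of fun r => (e r : Fin N → K)).row := h4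
    rw [Matrix.linearIndependent_rows_iff_isUnit, Matrix.isUnit_iff_isUnit_det] at h6
    exact h6.ne_zero
  -- the rows among the `a s`
  let g : Fin R → Fin N := fun s => e.symm ⟨a s, hsb ⟨s, rfl⟩⟩
  have hg : Function.Injective g := by
    intro s s' h
    have h7 := e.symm.injective h
    exact ha.injective (Subtype.ext_iff.1 h7)
  refine ⟨Matrix.of fun r => (e r : Fin N → K), Finset.univ.image g, hM, ?_, ?_, ?_⟩
  · rw [Finset.card_image_of_injective _ hg, Finset.card_univ, Fintype.card_fin]
  · intro r hr
    obtain ⟨s, -, rfl⟩ := Finset.mem_image.1 hr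
    refine ⟨s, ?_⟩
    change ((e (g s) : b) : Fin N → K) = a s
    simp only [g, Equiv.apply_symm_apply]
  · intro r hr
    rcases hbt (e r).2 with ⟨s, hs'⟩ | ⟨k, hk⟩
    · exfalso
      apply hr
      refine Finset.mem_image.2 ⟨s, Finset.mem_univ _, ?_⟩
      simp only [g]
      rw [Equiv.symm_apply_eq]
      exact Subtype.ext hs'
    · exact ⟨k, hk.symm⟩

end Pool.Agent.Y113.AL
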